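import Pool.Agent.Q234.PL.Stm2

/-! # PL-OV (helper177, for helper234): overlaps of vectors in the kernel of many blocks -/

set_option autoImplicit false

open scoped BigOperators
open Finset Pool.Agent.TH235.PP Pool.Agent.Q234.PL

namespace Pool.Agent.Q177.PL.OV

/-- Cauchy-Schwarz -/
lemma cs {S : Type*} [Fintype S] (φ ψ : S → ℂ) : ‖ip φ ψ‖ ^ 2 ≤ normSq φ * normSq ψ := by
  unfold ip normSq
  have h1 : ‖∑ s, (starRingEnd ℂ) (φ s) * ψ s‖ ≤ ∑ s, ‖φ s‖ * ‖ψ s‖ := by
    refine (norm_sum_le _ _).trans (le_of_eq (Finset.sum_congr rfl fun s _ => ?_))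
    rw [norm_mul, RCLike.norm_conj]
  exact (pow_le_pow_left₀ (norm_nonneg _) h1 2).trans (Finset.sum_mul_sq_le_sq_mul_sq _ _ _)

lemma normSq_nonneg {S : Type*} [Fintype S] (ψ : S → ℂ) : 0 ≤ normSq ψ :=
  Finset.sum_nonneg fun _ _ => by positivity

section

variable {P α : Type} [Fintype P] [Fintype α] {pa : P → α → α} {re : α → P}

/-- the involution `(t, p) ↦ (pa p t, re t)` -/
def inv (h : IsPaste pa re) : α × P ≃ α × P where
  toFun x := (pa x.2 x.1, re x.1)
  invFun x := (pa x.2 x.1, re x.1)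
  left_inv x := by
    ext
    · show pa (re x.1) (pa x.2 x.1) = x.1
      rw [h.pp, h.pa_re]
    · show re (pa x.2 x.1) = x.2
      rw [h.re_pa]
  right_inv x := by
    ext
    · show pa (re x.1) (pa x.2 x.1) = x.1
      rw [h.pp, h.pa_re]
    · show re (pa x.2 x.1) = x.2
      rw [h.re_pa]

/-- averaging -/
lemma avg {M : Type*} [AddCommMonoid M] (h : IsPaste pa re) (F : α → M) :
    ∑ t, ∑ p, F (pa p t) = Fintype.card P • ∑ t, F t := by
  have h1 : ∑ t, ∑ p, F (pa p t) = ∑ x : α × P, F (pa x.2 x.1) := by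
    rw [Fintype.sum_prod_type]
  have h2 : ∑ x : α × P, F (pa x.2 x.1) = ∑ x : α × P, F x.1 :=
    Fintype.sum_equiv (inv h) _ _ fun x => rfl
  rw [h1, h2, Fintype.sum_prod_type]
  simp only [Finset.sum_const, Finset.card_univ]
  rw [Finset.smul_sum]

/-- one block -/
lemma block (h : IsPaste pa re) (ψ : α → ℂ) (η : ℝ) (hψ : normSq ψ = 1)
    (hη : ∀ v : P → ℂ, η * Fintype.card P * ∑ p, ‖v p‖ ^ 2 ≤ ∑ t, ‖∑ p, v p * ψ (pa p t)‖ ^ 2)
    (v : P → ℂ) (hv : v ≠ 0) :
    η ≤ 1 ∧ ∀ φ : α → ℂ, (∀ t, ∑ p, v p * φ (pa p t) = 0) → ‖ip φ ψ‖ ^ 2 ≤ (1 - η) * normSq φ := by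
  classical
  obtain ⟨p₀, hp₀⟩ := Function.ne_iff.1 hv
  set V : ℝ := ∑ p, ‖v p‖ ^ 2 with hV
  have hV0 : 0 < V := by
    refine Finset.sum_pos' (fun p _ => by positivity) ⟨p₀, Finset.mem_univ _, ?_⟩
    have : 0 < ‖v p₀‖ := norm_pos_iff.2 hp₀
    positivity
  have hVC : (V : ℂ) ≠ 0 := by exact_mod_cast hV0.ne'
  have hcard : 0 < Fintype.card P := Fintype.card_pos_iff.2 ⟨p₀⟩
  have hcR : (0 : ℝ) < Fintype.card P := by exact_mod_cast hcard
  have hcC : ((Fintype.card P : ℕ) : ℂ) ≠ 0 := by exact_mod_cast hcard.ne'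
  set w : α → ℂ := fun t => ∑ p, v p * ψ (pa p t) with hw
  have hwpa : ∀ q t, w (pa q t) = w t := by
    intro q t
    simp only [hw]
    exact Finset.sum_congr rfl fun p _ => by rw [h.pp]
  set ξ : α → ℂ := fun t => (starRingEnd ℂ) (v (re t)) * w t / V with hξ
  have hξpa : ∀ p t, ξ (pa p t) = (starRingEnd ℂ) (v p) * w t / V := by
    intro p t
    simp only [hξ]
    rw [h.re_pa, hwpa]
  set W : ℝ := ∑ t, ‖w t‖ ^ 2 with hW
  set c : ℝ := W / (V * Fintype.card P) with hc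
  have hηc : η ≤ c := by
    rw [hc, le_div_iff₀ (by positivity)]
    have := hη v
    calc η * (V * Fintype.card P) = η * Fintype.card P * V := by ring
      _ ≤ W := this
  -- the norm of ξ
  have hn : normSq ξ = c := by
    have h1 : ∑ t, ∑ p, ‖ξ (pa p t)‖ ^ 2 = Fintype.card P • ∑ t, ‖ξ t‖ ^ 2 := avg h fun t => ‖ξ t‖ ^ 2
    have h2 : ∑ t, ∑ p, ‖ξ (pa p t)‖ ^ 2 = W / V := by
      have h3 : ∀ t, ∑ p, ‖ξ (pa p t)‖ ^ 2 = ‖w t‖ ^ 2 / V := by
        intro t
        have h4 : ∀ p, ‖ξ (pa p t)‖ ^ 2 = ‖v p‖ ^ 2 * (‖w t‖ ^ 2 / V ^ 2) := by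
          intro p
          rw [hξpa, norm_div, norm_mul, RCLike.norm_conj, Complex.norm_real, Real.norm_eq_abs,
            abs_of_pos hV0]
          ring
        simp only [h4]
        rw [← Finset.sum_mul, ← hV]
        field_simp
      simp only [h3]
      rw [← Finset.sum_div]
    rw [h2, nsmul_eq_mul] at h1
    have h5 : normSq ξ = ∑ t, ‖ξ t‖ ^ 2 := rfl
    rw [h5, hc, eq_div_iff (by positivity)]
    rw [div_eq_iff hV0.ne'] at h1
    rw [h1]; ring
  -- the scalar product with ψ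
  have hi : ip ξ ψ = (c : ℂ) := by
    have h1 : ∑ t, ∑ p, (starRingEnd ℂ) (ξ (pa p t)) * ψ (pa p t) =
        Fintype.card P • ∑ t, (starRingEnd ℂ) (ξ t) * ψ t := avg h fun t => (starRingEnd ℂ) (ξ t) * ψ t
    have h2 : ∑ t, ∑ p, (starRingEnd ℂ) (ξ (pa p t)) * ψ (pa p t) = (W : ℂ) / V := by
      have h3 : ∀ t, ∑ p, (starRingEnd ℂ) (ξ (pa p t)) * ψ (pa p t) = ((‖w t‖ ^ 2 : ℝ) : ℂ) / V := by
        intro t
        have h4 : ∀ p, (starRingEnd ℂ) (ξ (pa p t)) * ψ (pa p t) =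
            (starRingEnd ℂ) (w t) / V * (v p * ψ (pa p t)) := by
          intro p
          rw [hξpa, map_div₀, map_mul, Complex.conj_conj, Complex.conj_ofReal]
          ring
        simp only [h4]
        rw [← Finset.mul_sum]
        have h5 : ∑ p, v p * ψ (pa p t) = w t := rfl
        rw [h5]
        have h6 : (starRingEnd ℂ) (w t) * w t = ((‖w t‖ ^ 2 : ℝ) : ℂ) := by
          rw [mul_comm, Complex.mul_conj, Complex.normSq_eq_norm_sq]
        rw [div_mul_eq_mul_div, h6]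
      simp only [h3]
      rw [← Finset.sum_div, ← Complex.ofReal_sum]
    rw [h2, nsmul_eq_mul] at h1
    have h5 : ip ξ ψ = ∑ t, (starRingEnd ℂ) (ξ t) * ψ t := rfl
    rw [h5, hc]
    push_cast
    rw [eq_div_iff (mul_ne_zero hVC hcC)]
    rw [div_eq_iff hVC] at h1
    rw [h1]; ring
  -- the norm of the difference
  have hd : normSq (fun t => ψ t - ξ t) = 1 - c := by
    have h1 : ∀ t, ‖ψ t - ξ t‖ ^ 2 = ‖ψ t‖ ^ 2 + ‖ξ t‖ ^ 2 - 2 * ((starRingEnd ℂ) (ξ t) * ψ t).re := by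
      intro t
      rw [← Complex.normSq_eq_norm_sq, ← Complex.normSq_eq_norm_sq, ← Complex.normSq_eq_norm_sq,
        Complex.normSq_sub, mul_comm (ψ t)]
    have h2 : normSq (fun t => ψ t - ξ t) = ∑ t, ‖ψ t - ξ t‖ ^ 2 := rfl
    rw [h2]
    simp only [h1]
    rw [Finset.sum_sub_distrib, Finset.sum_add_distrib, ← Finset.mul_sum, ← Complex.re_sum]
    have h3 : ∑ t, ‖ψ t‖ ^ 2 = 1 := hψ
    have h4 : ∑ t, ‖ξ t‖ ^ 2 = c := hn
    have h5 : (∑ t, (starRingEnd ℂ) (ξ t) * ψ t).re = c := by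
      have : ∑ t, (starRingEnd ℂ) (ξ t) * ψ t = (c : ℂ) := hi
      rw [this, Complex.ofReal_re]
    rw [h3, h4, h5]
    ring
  have hc1 : c ≤ 1 := by
    have := normSq_nonneg (fun t => ψ t - ξ t)
    rw [hd] at this
    linarith
  refine ⟨hηc.trans hc1, fun φ hφ => ?_⟩
  have h0 : ip φ ξ = 0 := by
    have h1 : ∑ t, ∑ p, (starRingEnd ℂ) (φ (pa p t)) * ξ (pa p t) =
        Fintype.card P • ∑ t, (starRingEnd ℂ) (φ t) * ξ t := avg h fun t => (starRingEnd ℂ) (φ t) * ξ t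
    have h2 : ∑ t, ∑ p, (starRingEnd ℂ) (φ (pa p t)) * ξ (pa p t) = 0 := by
      refine Finset.sum_eq_zero fun t _ => ?_
      have h4 : ∀ p, (starRingEnd ℂ) (φ (pa p t)) * ξ (pa p t) =
          w t / V * (starRingEnd ℂ) (v p * φ (pa p t)) := by
        intro p
        rw [hξpa, map_mul]
        ring
      simp only [h4]
      rw [← Finset.mul_sum, ← map_sum, hφ t, map_zero, mul_zero]
    rw [h2, nsmul_eq_mul] at h1
    have h5 : ip φ ξ = ∑ t, (starRingEnd ℂ) (φ t) * ξ t := rfl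
    rw [h5]
    exact (mul_eq_zero.1 h1.symm).resolve_left hcC
  have h6 : ip φ ψ = ip φ (fun t => ψ t - ξ t) := by
    have h7 : ip φ (fun t => ψ t - ξ t) = ip φ ψ - ip φ ξ := by
      unfold ip
      rw [← Finset.sum_sub_distrib]
      exact Finset.sum_congr rfl fun t _ => by ring
    rw [h7, h0, sub_zero]
  rw [h6]
  refine (cs _ _).trans ?_
  rw [hd, mul_comm]
  exact mul_le_mul_of_nonneg_right (by linarith) (normSq_nonneg φ)

end

/-- splitting off the first coordinate -/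
lemma sum_cons {α β : Type} [Fintype α] [Fintype β] {M : Type*} [AddCommMonoid M] (G : ℕ)
    (f : (Fin (G + 1) → α) × β → M) :
    ∑ x, f x = ∑ y : (Fin G → α) × β, ∑ x₀ : α, f (Fin.cons x₀ y.1, y.2) := by
  have h1 : ∑ x : Fin (G + 1) → α, ∑ c : β, f (x, c) =
      ∑ z : α × (Fin G → α), ∑ c : β, f (Fin.cons z.1 z.2, c) :=
    (Fintype.sum_equiv (Fin.consEquiv (fun _ : Fin (G + 1) => α)) _ _ fun z => rfl).symm
  rw [Fintype.sum_prod_type, h1, Fintype.sum_prod_type, Fintype.sum_prod_type, Finset.sum_comm]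
  refine Finset.sum_congr rfl fun x' _ => ?_
  rw [Finset.sum_comm]

theorem main : Overlap := by
  intro G P α β _ _ _ pa re h ψ χ η hψ hη0 hη
  induction G with
  | zero =>
    intro φ v _ _
    rw [pow_zero, one_mul]
    refine (cs _ _).trans (le_of_eq ?_)
    congr 1
    unfold normSq
    rw [Fintype.sum_prod_type]
    simp
  | succ G ih =>
    intro φ v hv hφ
    obtain ⟨hη1, hb⟩ := block h ψ η hψ hη (v 0) (hv 0)
    set Φ : (Fin G → α) × β → ℂ := fun y => ∑ x₀, (starRingEnd ℂ) (ψ x₀) * φ (Fin.cons x₀ y.1, y.2) with hΦ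
    have hker : ∀ (b : Fin G) (t : Fin G → α) (c : β),
        ∑ p, v b.succ p * Φ (Function.update t b (pa p (t b)), c) = 0 := by
      intro b t c
      simp only [hΦ]
      have h1 : ∀ p, v b.succ p * ∑ x₀, (starRingEnd ℂ) (ψ x₀) *
          φ (Fin.cons x₀ (Function.update t b (pa p (t b))), c) =
          ∑ x₀, (starRingEnd ℂ) (ψ x₀) * (v b.succ p *
            φ (Function.update (Fin.cons x₀ t : Fin (G + 1) → α) b.succ
              (pa p ((Fin.cons x₀ t : Fin (G + 1) → α) b.succ)), c)) := by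
        intro p
        rw [Finset.mul_sum]
        refine Finset.sum_congr rfl fun x₀ _ => ?_
        rw [Fin.cons_update, Fin.cons_succ]
        ring
      simp only [h1]
      rw [Finset.sum_comm]
      refine Finset.sum_eq_zero fun x₀ _ => ?_
      rw [← Finset.mul_sum, hφ b.succ (Fin.cons x₀ t) c, mul_zero]
    have h2 := ih Φ (fun b => v b.succ) (fun b => hv b.succ) hker
    have h3 : ip φ (fun x => (∏ b, ψ (x.1 b)) * χ x.2) = ip Φ (fun x => (∏ b, ψ (x.1 b)) * χ x.2) := by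
      unfold ip
      rw [sum_cons]
      refine Finset.sum_congr rfl fun y _ => ?_
      simp only [hΦ]
      rw [map_sum, Finset.sum_mul]
      refine Finset.sum_congr rfl fun x₀ _ => ?_
      rw [Fin.prod_univ_succ, Fin.cons_zero]
      simp only [Fin.cons_succ]
      rw [map_mul, Complex.conj_conj]
      ring
    have h4 : normSq Φ ≤ (1 - η) * normSq φ := by
      have e1 : normSq φ = ∑ y : (Fin G → α) × β, ∑ x₀ : α, ‖φ (Fin.cons x₀ y.1, y.2)‖ ^ 2 := by
        unfold normSq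
        rw [sum_cons]
      rw [e1, Finset.mul_sum]
      unfold normSq
      refine Finset.sum_le_sum fun y _ => ?_
      have h5 := hb (fun x₀ => φ (Fin.cons x₀ y.1, y.2)) (by
        intro t
        have := hφ 0 (Fin.cons t y.1) y.2
        simp only [Fin.update_cons_zero, Fin.cons_zero] at this
        exact this)
      have h6 : ‖Φ y‖ = ‖ip (fun x₀ => φ (Fin.cons x₀ y.1, y.2)) ψ‖ := by
        rw [← RCLike.norm_conj]
        congr 1
        simp only [hΦ, ip]
        rw [map_sum]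
        refine Finset.sum_congr rfl fun x₀ _ => ?_
        rw [map_mul, Complex.conj_conj, mul_comm]
      rw [h6]
      exact h5
    rw [h3]
    refine h2.trans ?_
    have h7 : 0 ≤ 1 - η := by linarith
    calc (1 - η) ^ G * normSq Φ * normSq χ ≤ (1 - η) ^ G * ((1 - η) * normSq φ) * normSq χ := by
          refine mul_le_mul_of_nonneg_right ?_ (normSq_nonneg χ)
          exact mul_le_mul_of_nonneg_left h4 (by positivity)
      _ = (1 - η) ^ (G + 1) * normSq φ * normSq χ := by ring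

end Pool.Agent.Q177.PL.OV
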